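import Pool.Agent.Helper87_UT.Stmts

/-! # The bisection graph of a formula (module BIS, squad UT, MP_f2f204_lc) -/

set_option autoImplicit false

namespace Pool.Agent.UT.H56

open Finset
open Pool.Agent.Helper76_Bisect
open Pool.Agent.Common_CookLevin (CNF encodeCNF)

/-! ## numbers of the vertices -/

def n1 {k : ℕ} : Option (Fin k) → ℕ
  | none => 0
  | some v => v.val + 1

def n2 {l : ℕ} : Option (Fin l × Fin 5) → ℕ
  | none => 0
  | some (g, j) => 5 * g.val + j.val + 1

theorem n1_lt {k : ℕ} (v : Option (Fin k)) : n1 v < k + 1 := by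
  cases v with
  | none => exact Nat.succ_pos _
  | some v => have := v.isLt; show v.val + 1 < k + 1; omega

theorem n1_inj {k : ℕ} {v w : Option (Fin k)} (h : n1 v = n1 w) : v = w := by
  cases v <;> cases w <;> simp only [n1] at h
  · rfl
  · omega
  · omega
  · congr 1; ext; omega

theorem n2_lt {l : ℕ} (t : Option (Fin l × Fin 5)) : n2 t < 5 * l + 1 := by
  rcases t with _ | ⟨g, j⟩
  · exact Nat.succ_pos _
  · have := g.isLt
    have := j.isLt
    show 5 * g.val + j.val + 1 < 5 * l + 1
    omega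

theorem n2_inj {l : ℕ} {s t : Option (Fin l × Fin 5)} (h : n2 s = n2 t) : s = t := by
  rcases s with _ | ⟨g, j⟩ <;> rcases t with _ | ⟨g', j'⟩ <;> simp only [n2] at h
  · rfl
  · omega
  · omega
  · have h1 := j.isLt
    have h2 := j'.isLt
    have h3 : g = g' := by ext; omega
    have h4 : j = j' := by ext; subst h3; omega
    rw [h3, h4]

theorem n2_eq_zero {l : ℕ} {t : Option (Fin l × Fin 5)} : n2 t = 0 ↔ t = none := by
  constructor
  · intro h; exact n2_inj (t := none) h
  · rintro rfl; rfl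

/-- the number of a vertex -/
def num {k l : ℕ} (u : U k l) : ℕ := n1 u.1 * (5 * l + 1) + n2 u.2

theorem num_div {k l : ℕ} (u : U k l) : num u / (5 * l + 1) = n1 u.1 := by
  unfold num
  rw [Nat.add_comm, Nat.add_mul_div_right _ _ (Nat.succ_pos _),
    Nat.div_eq_of_lt (n2_lt _), Nat.zero_add]

theorem num_mod {k l : ℕ} (u : U k l) : num u % (5 * l + 1) = n2 u.2 := by
  unfold num
  rw [Nat.add_comm, Nat.add_mul_mod_self_right, Nat.mod_eq_of_lt (n2_lt _)]

theorem num_inj {k l : ℕ} {u v : U k l} (h : num u = num v) : u = v := by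
  have h1 : n1 u.1 = n1 v.1 := by rw [← num_div u, h, num_div]
  have h2 : n2 u.2 = n2 v.2 := by rw [← num_mod u, h, num_mod]
  exact Prod.ext (n1_inj h1) (n2_inj h2)

theorem num_lt {k l : ℕ} (u : U k l) : num u < (k + 1) * (5 * l + 1) := by
  unfold num
  have h1 := n1_lt u.1
  have h2 := n2_lt u.2
  calc n1 u.1 * (5 * l + 1) + n2 u.2 < n1 u.1 * (5 * l + 1) + (5 * l + 1) := by omega
    _ = (n1 u.1 + 1) * (5 * l + 1) := by ring
    _ ≤ _ := Nat.mul_le_mul_right _ h1

theorem card_U (k l : ℕ) : Fintype.card (U k l) = (k + 1) * (5 * l + 1) := by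
  simp [U, mul_comm]

/-! ## gates -/

theorem exists_fin_gate (k : ℕ) (γ : Gate ℕ 0) (h : γ.all (fun v => v < k)) :
    ∃ γ' : Gate (Fin k) 0, γ'.rename Fin.val = γ := by
  cases γ with
  | xin v i => exact i.elim0
  | con v b => exact ⟨.con ⟨v, h⟩ b, rfl⟩
  | nand z a b => exact ⟨.nand ⟨z, h.1⟩ ⟨a, h.2.1⟩ ⟨b, h.2.2⟩, rfl⟩

theorem def_rename {k : ℕ} (γ : Gate (Fin k) 0) : defN (γ.rename Fin.val) = deficit γ := by
  cases γ <;> rfl

theorem es_rename {k : ℕ} (γ : Gate (Fin k) 0) : esN (γ.rename Fin.val) = esize γ := by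
  cases γ <;> rfl

theorem slotN_eq {k : ℕ} (z a b : Fin k) (j : Fin 5) :
    slotN z.val a.val b.val j.val = n1 (slotVar z a b j) := by
  fin_cases j <;> rfl

theorem mem_SP : ∀ p : Fin 5 × Fin 5, p ∈ SP ↔ p.1.val < p.2.val ∧ p.1.val ≤ 2 := by decide

theorem gate_edge {k l : ℕ} (x : Fin 0 → Bool) (g : Fin l) (γ : Gate (Fin k) 0) (u : U k l)
    (v1 : Option (Fin k)) (j : Fin 5) :
    (u, ((v1, some (g, j)) : U k l)) ∈ gE x g γ ↔
      gateEdge (γ.rename Fin.val) g.val (n1 u.1) (n2 u.2) (n1 v1) (5 * g.val + j.val + 1) = true := by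
  cases γ with
  | xin v i => exact i.elim0
  | con w b =>
    rw [gE, Finset.mem_singleton]
    show _ ↔ decide (n1 u.1 = w.val + 1 ∧ n2 u.2 = (if b = true then 5 * g.val + 1 else 0) ∧
      n1 v1 = 0 ∧ 5 * g.val + j.val + 1 = 5 * g.val + 2) = true
    rw [decide_eq_true_eq]
    have hj : 5 * g.val + j.val + 1 = 5 * g.val + 2 ↔ j = 1 := by
      constructor
      · intro h
        ext
        show j.val = 1
        omega
      · rintro rfl
        rfl
    have hu1 : n1 u.1 = w.val + 1 ↔ u.1 = some w :=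
      ⟨fun h => n1_inj (w := some w) h, fun h => by rw [h]; rfl⟩
    have hv1 : n1 v1 = 0 ↔ v1 = none :=
      ⟨fun h => n1_inj (w := none) h, fun h => by rw [h]; rfl⟩
    rw [hj, hu1, hv1]
    cases b with
    | true =>
      have hu2 : n2 u.2 = 5 * g.val + 1 ↔ u.2 = some (g, 0) :=
        ⟨fun h => n2_inj (t := some (g, 0)) h, fun h => by rw [h]; rfl⟩
      simp only [if_true, bitE, hu2, Prod.ext_iff, Option.some.injEq, true_and]
      constructor
      · rintro ⟨⟨h1, h2⟩, h3, h4⟩
        exact ⟨h1, h2, h3, h4⟩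
      · rintro ⟨h1, h2, h3, h4⟩
        exact ⟨⟨h1, h2⟩, h3, h4⟩
    | false =>
      have hu2 : n2 u.2 = 0 ↔ u.2 = none := n2_eq_zero
      simp only [Bool.false_eq_true, if_false, bitE, hu2, Prod.ext_iff, Option.some.injEq,
        true_and]
      constructor
      · rintro ⟨⟨h1, h2⟩, h3, h4⟩
        exact ⟨h1, h2, h3, h4⟩
      · rintro ⟨h1, h2, h3, h4⟩
        exact ⟨⟨h1, h2⟩, h3, h4⟩
  | nand z a b =>
    rw [gE, Finset.mem_image]
    show _ ↔ decide (n2 u.2 ≠ 0 ∧ (n2 u.2 - 1) / 5 = g.val ∧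
      (n2 u.2 - 1) % 5 < (5 * g.val + j.val + 1 - 1) % 5 ∧ (n2 u.2 - 1) % 5 ≤ 2 ∧
      n1 u.1 = slotN z a b ((n2 u.2 - 1) % 5) ∧
      n1 v1 = slotN z a b ((5 * g.val + j.val + 1 - 1) % 5)) = true
    rw [decide_eq_true_eq]
    have hjlt := j.isLt
    have hjm : (5 * g.val + j.val + 1 - 1) % 5 = j.val := by omega
    rw [hjm]
    obtain ⟨u1, u2⟩ := u
    rcases u2 with _ | ⟨g', i⟩
    · constructor
      · rintro ⟨p, hp, h⟩
        simp [gv] at h
      · rintro ⟨h, _⟩
        exact absurd rfl h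
    · have hilt := i.isLt
      have e1 : (n2 (some (g', i)) - 1) % 5 = i.val := by
        show (5 * g'.val + i.val + 1 - 1) % 5 = i.val
        omega
      have e2 : (n2 (some (g', i)) - 1) / 5 = g'.val := by
        show (5 * g'.val + i.val + 1 - 1) / 5 = g'.val
        omega
      rw [e1, e2, slotN_eq, slotN_eq]
      constructor
      · rintro ⟨⟨p1, p2⟩, hp, h⟩
        simp only [gv, Prod.mk.injEq, Option.some.injEq, true_and] at h
        obtain ⟨⟨h1, h2, h3⟩, h4, h5⟩ := h
        subst h2 h3 h5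
        have := (mem_SP (p1, p2)).1 hp
        refine ⟨by show 5 * g.val + p1.val + 1 ≠ 0; omega, rfl, this.1, this.2, ?_, ?_⟩
        · rw [h1]
        · rw [h4]
      · rintro ⟨_, h1, h2, h3, h4, h5⟩
        have hg : g' = g := Fin.ext h1
        subst hg
        refine ⟨(i, j), (mem_SP (i, j)).2 ⟨h2, h3⟩, ?_⟩
        simp only [gv, Prod.mk.injEq, and_true]
        exact ⟨(n1_inj h4).symm, (n1_inj h5).symm⟩

/-! ## the edges -/

theorem star_edge {k l : ℕ} (u v : U k l) :
    (u, v) ∈ starE k l ↔ u.1 = v.1 ∧ u.2 = none ∧ v.2 ≠ none := by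
  unfold starE
  rw [Finset.mem_image]
  constructor
  · rintro ⟨p, _, h⟩
    rw [Prod.mk.injEq] at h
    rw [← h.1, ← h.2]
    simp
  · rintro ⟨h1, h2, h3⟩
    obtain ⟨t, ht⟩ := Option.ne_none_iff_exists'.1 h3
    refine ⟨(u.1, t), Finset.mem_univ _, ?_⟩
    rw [Prod.mk.injEq]
    refine ⟨Prod.ext rfl h2.symm, Prod.ext h1 ht.symm⟩

theorem gE_snd {k l : ℕ} {x : Fin 0 → Bool} {g : Fin l} {γ : Gate (Fin k) 0} {u v : U k l}
    (h : (u, v) ∈ gE x g γ) : ∃ j, v.2 = some (g, j) := by
  cases γ with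
  | xin v i => exact i.elim0
  | con w b =>
    rw [gE, Finset.mem_singleton] at h
    have h2 := congrArg Prod.snd h
    refine ⟨1, ?_⟩
    rw [show v = (bitE g w b).2 from h2]
    cases b <;> rfl
  | nand z a b =>
    rw [gE, Finset.mem_image] at h
    obtain ⟨p, _, hp⟩ := h
    rw [Prod.mk.injEq] at hp
    exact ⟨p.2, by rw [← hp.2]; rfl⟩

theorem all_edge (F : CNF) (gs : Fin (lN F) → Gate (Fin (kN F)) 0)
    (hgs : ∀ g, (gs g).rename Fin.val = gateAt F g.val) (x : Fin 0 → Bool)
    (u v : U (kN F) (lN F)) : (u, v) ∈ allE gs x ↔ edgeN F (num u) (num v) = true := by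
  unfold edgeN
  simp only [num_div, num_mod, Bool.and_eq_true, Bool.or_eq_true, decide_eq_true_eq]
  unfold allE
  rw [Finset.mem_union, star_edge, Finset.mem_biUnion]
  obtain ⟨v1, v2⟩ := v
  rcases v2 with _ | ⟨g, j⟩
  · constructor
    · rintro (⟨_, _, h⟩ | ⟨g, _, h⟩)
      · exact absurd rfl h
      · obtain ⟨j, hj⟩ := gE_snd h
        exact absurd hj (by simp)
    · rintro ⟨h, _⟩
      exact absurd rfl h
  · have hjlt := j.isLt
    have e1 : (n2 (some (g, j)) - 1) / 5 = g.val := by
      show (5 * g.val + j.val + 1 - 1) / 5 = g.val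
      omega
    have hne : n2 (some (g, j)) ≠ 0 := by show 5 * g.val + j.val + 1 ≠ 0; omega
    rw [e1, ← hgs g]
    have h1 := gate_edge x g (gs g) u v1 j
    constructor
    · rintro (⟨h2, h3, _⟩ | ⟨g', _, h⟩)
      · exact ⟨hne, Or.inl ⟨by show n1 u.1 = n1 v1; rw [h2], n2_eq_zero.2 h3⟩⟩
      · obtain ⟨j', hj'⟩ := gE_snd h
        have hg : g = g' := by simpa using congrArg (fun t => t.map Prod.fst) hj'
        subst hg
        exact ⟨hne, Or.inr (h1.1 h)⟩
    · rintro ⟨_, h2 | h2⟩
      · exact Or.inl ⟨n1_inj h2.1, n2_eq_zero.1 h2.2, by simp⟩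
      · exact Or.inr ⟨g, Finset.mem_univ _, h1.2 h2⟩

/-! ## the module -/

theorem card_star (k l : ℕ) : (starE k l).card = (k + 1) * (5 * l) := by
  unfold starE
  rw [Finset.card_image_of_injective]
  · simp [mul_comm]
  · intro p q h
    simp only [Prod.mk.injEq, Option.some.injEq] at h
    exact Prod.ext h.1.1 h.2.2

/-- the numbering of the vertices -/
def nE {k l N : ℕ} (hN : N = (k + 1) * (5 * l + 1)) : U k l ⊕ U k l → Fin (2 * N)
  | Sum.inl u => ⟨num u, by have := num_lt u; omega⟩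
  | Sum.inr u => ⟨N + num u, by have := num_lt u; omega⟩

theorem nE_bij {k l N : ℕ} (hN : N = (k + 1) * (5 * l + 1)) :
    Function.Bijective (nE (k := k) (l := l) hN) := by
  rw [Fintype.bijective_iff_injective_and_card]
  constructor
  · rintro (u | u) (v | v) h
    · exact congrArg Sum.inl (num_inj (congrArg Fin.val h))
    · have h1 : num u = N + num v := congrArg Fin.val h
      have := num_lt u
      omega
    · have h1 : N + num u = num v := congrArg Fin.val h
      have := num_lt v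
      omega
    · have h1 : N + num u = N + num v := congrArg Fin.val h
      exact congrArg Sum.inr (num_inj (by omega))
  · rw [Fintype.card_sum, card_U, Fintype.card_fin, hN]; ring

theorem bis (hG : GatStmt) : BisStmt := by
  classical
  intro F
  obtain ⟨hall, _⟩ := hG F
  choose gs hgs using fun g : Fin (lN F) => exists_fin_gate (kN F) (gateAt F g.val) (hall g.val g.isLt)
  set x : Fin 0 → Bool := fun i => i.elim0 with hx
  set E : U (kN F) (lN F) ⊕ U (kN F) (lN F) ≃ Fin (2 * uN F) :=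
    Equiv.ofBijective _ (nE_bij (k := kN F) (l := lN F) (N := uN F) rfl) with hE
  have hEl : ∀ u, (E (Sum.inl u)).val = num u := fun u => rfl
  have hEr : ∀ u, (E (Sum.inr u)).val = uN F + num u := fun u => rfl
  refine ⟨(bisGraph gs x).comap E.symm, ?_, ?_⟩
  · have key : ∀ p q, (bisGraph gs x).Adj p q ↔ bisN F (E p).val (E q).val = true := by
      intro p q
      unfold bisN
      have hpq : (E p).val ≠ (E q).val ↔ p ≠ q := by
        rw [Ne, Ne, Fin.val_inj, E.apply_eq_iff_eq]
      simp only [Bool.and_eq_true, Bool.not_eq_true', decide_eq_true_eq, hpq]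
      show (p ≠ q ∧ ¬ ∃ u v, p = Sum.inl u ∧ q = Sum.inl v ∧ (cutGraph gs x).Adj u v) ↔ _
      refine and_congr_right fun _ => ?_
      rw [← Bool.not_eq_true, not_iff_not]
      simp only [Bool.and_eq_true, Bool.or_eq_true, decide_eq_true_eq]
      constructor
      · rintro ⟨u, v, rfl, rfl, h⟩
        rw [cutGraph_adj] at h
        rw [hEl, hEl]
        refine ⟨⟨num_lt u, num_lt v⟩, ?_⟩
        rw [← all_edge F gs hgs x, ← all_edge F gs hgs x]
        exact h
      · rintro ⟨⟨h1, h2⟩, h3⟩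
        rcases p with u | u
        · rcases q with v | v
          · refine ⟨u, v, rfl, rfl, ?_⟩
            rw [hEl, hEl, ← all_edge F gs hgs x, ← all_edge F gs hgs x] at h3
            rw [cutGraph_adj]
            exact h3
          · rw [hEr] at h2; omega
        · rw [hEr] at h1; omega
    intro i j
    have := key (E.symm i) (E.symm j)
    rw [E.apply_symm_apply, E.apply_symm_apply] at this
    exact this
  · have hcard : Fintype.card (U (kN F) (lN F)) = uN F := card_U _ _
    have h1 := bis_iff gs x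
    rw [hcard, card_star] at h1
    have hd : ∑ g, deficit (gs g) = ∑ g ∈ range (lN F), defN (gateAt F g) := by
      rw [Finset.sum_range]
      refine Finset.sum_congr rfl fun g _ => ?_
      rw [← hgs g, def_rename]
    have he : ∑ g, esize (gs g) = ∑ g ∈ range (lN F), esN (gateAt F g) := by
      rw [Finset.sum_range]
      refine Finset.sum_congr rfl fun g _ => ?_
      rw [← hgs g, es_rename]
    rw [hd, he] at h1
    have h2 : (∃ A : Finset (Fin (2 * uN F)), A.card = uN F ∧
        cutEdges ((bisGraph gs x).comap E.symm) A ≤ kcN F) ↔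
        ∃ A : Finset (U (kN F) (lN F) ⊕ U (kN F) (lN F)), A.card = uN F ∧
        cutEdges (bisGraph gs x) A ≤ kcN F := by
      constructor
      · rintro ⟨A, hA, hc⟩
        rw [cutEdges_comap] at hc
        exact ⟨A.map E.symm.toEmbedding, by rw [Finset.card_map, hA], hc⟩
      · rintro ⟨A, hA, hc⟩
        refine ⟨A.map E.toEmbedding, by rw [Finset.card_map, hA], ?_⟩
        rw [cutEdges_comap]
        have : (A.map E.toEmbedding).map E.symm.toEmbedding = A := by
          ext p; simp
        rw [this]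
        exact hc
    rw [h2]
    refine h1.trans ?_
    constructor
    · rintro ⟨α, hα⟩
      refine ⟨fun n => if h : n < kN F then α ⟨n, h⟩ else false, fun g hg => ?_⟩
      have h3 := hα ⟨g, hg⟩
      have h4 : gateAt F g = (gs ⟨g, hg⟩).rename Fin.val := (hgs ⟨g, hg⟩).symm
      rw [h4, Gate.holds_rename]
      have h5 : (fun v : Fin (kN F) => if h : v.val < kN F then α ⟨v.val, h⟩ else false) = α := by
        funext v
        rw [dif_pos v.isLt]
      rw [h5]
      exact h3
    · rintro ⟨α, hα⟩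
      refine ⟨fun v => α v.val, fun g => ?_⟩
      have h3 := hα g.val g.isLt
      rw [← hgs g, Gate.holds_rename] at h3
      exact h3

end Pool.Agent.UT.H56
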