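import Pool.Agent.Helper87_UT.Stmts

/-! # The error of the test with random labels (module ERR, squad UT, MP_f2f204_lc) -/

set_option autoImplicit false

namespace Pool.Agent.UT.H56E

open Finset
open Pool.Agent.Helper76_Bisect

/-! ## bits and labels -/

/-- the bits of the vertex `u` -/
def sub {N κ : ℕ} (labs : Fin (N * κ) → Bool) (u : Fin N) (s : Fin κ) : Bool :=
  labs ⟨u.val * κ + s.val, by
    have h1 := u.isLt
    have h2 := s.isLt
    have h3 : (u.val + 1) * κ ≤ N * κ := Nat.mul_le_mul_right _ h1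
    rw [add_mul] at h3
    omega⟩

theorem drop_take {N κ : ℕ} (labs : Fin (N * κ) → Bool) (u : Fin N) :
    ((List.ofFn labs).drop (u.val * κ)).take κ = List.ofFn (sub labs u) := by
  have h1 := u.isLt
  have h3 : (u.val + 1) * κ ≤ N * κ := Nat.mul_le_mul_right _ h1
  rw [add_mul, one_mul] at h3
  apply List.ext_getElem
  · simp only [List.length_take, List.length_drop, List.length_ofFn]
    omega
  · intro i h4 h5
    simp only [List.getElem_take, List.getElem_drop, List.getElem_ofFn]
    rfl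

theorem sub_inj {N κ : ℕ} {labs labs' : Fin (N * κ) → Bool} (h : ∀ u, sub labs u = sub labs' u) :
    labs = labs' := by
  funext i
  have hi := i.isLt
  have hκ : 0 < κ := by
    rcases Nat.eq_zero_or_pos κ with h0 | h0
    · subst h0
      exact absurd hi (by simp)
    · exact h0
  have hu : i.val / κ < N := by
    rw [Nat.div_lt_iff_lt_mul hκ]; exact hi
  have hs : i.val % κ < κ := Nat.mod_lt _ hκ
  have h1 := congrFun (h ⟨i.val / κ, hu⟩) ⟨i.val % κ, hs⟩
  have h2 : (⟨i.val / κ * κ + i.val % κ, by rw [Nat.div_add_mod']; exact hi⟩ : Fin (N * κ)) = i :=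
    Fin.ext (Nat.div_add_mod' _ _)
  unfold sub at h1
  rw [h2] at h1
  exact h1

/-- the labels -/
def bl (hV : ValStmt) {a : ℕ} (labs : Fin (2 * tm a * tκ a) → Bool) (u : Fin (2 * tm a)) :
    Fin (tk a) :=
  ⟨tLab a (List.ofFn labs) u, by
    unfold tLab
    rw [drop_take labs u]
    exact (hV (tκ a)).1 _⟩

theorem bl_bij (hV : ValStmt) (a : ℕ) : Function.Bijective (bl hV (a := a)) := by
  rw [Fintype.bijective_iff_injective_and_card]
  constructor
  · intro labs labs' h
    apply sub_inj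
    intro u
    have h1 : tLab a (List.ofFn labs) u = tLab a (List.ofFn labs') u :=
      congrArg Fin.val (congrFun h u)
    unfold tLab at h1
    rw [drop_take labs u, drop_take labs' u] at h1
    have h2 := (hV (tκ a)).2 (UT.val (List.ofFn (sub labs u))) ((hV (tκ a)).1 _)
    exact h2.unique rfl h1.symm
  · simp only [Fintype.card_fun, Fintype.card_bool, Fintype.card_fin]
    unfold tk
    rw [← pow_mul, mul_comm]

/-! ## samples -/

theorem tt_pos {a : ℕ} (ha : 1 ≤ a) : 0 < tt a := by
  unfold tt; positivity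

/-- splitting the samples -/
def cx {n a : ℕ} (x : Fin (tQ a) → Fin n) :
    (Fin (2 * tm a) → Fin n) × (Fin (tk a) → Fin (tt a) → Fin n) := (testS x, blockS x)

theorem cx_bij {n a : ℕ} (ha : 1 ≤ a) : Function.Bijective (cx (n := n) (a := a)) := by
  rw [Fintype.bijective_iff_injective_and_card]
  constructor
  · intro x y h
    have h1 : testS x = testS y := congrArg Prod.fst h
    have h2 : blockS x = blockS y := congrArg Prod.snd h
    funext i
    have hi := i.isLt
    have htt := tt_pos ha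
    rcases Nat.lt_or_ge i.val (tk a * tt a) with hlt | hge
    · have hj : i.val / tt a < tk a := by rw [Nat.div_lt_iff_lt_mul htt]; exact hlt
      have hs : i.val % tt a < tt a := Nat.mod_lt _ htt
      have h3 := congrFun (congrFun h2 ⟨i.val / tt a, hj⟩) ⟨i.val % tt a, hs⟩
      unfold blockS at h3
      have h4 : (⟨i.val / tt a * tt a + i.val % tt a,
        by rw [Nat.div_add_mod']; exact hi⟩ : Fin (tQ a)) = i := Fin.ext (Nat.div_add_mod' _ _)
      rw [h4] at h3
      exact h3
    · have hu : i.val - tk a * tt a < 2 * tm a := by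
        have : tQ a = tk a * tt a + 2 * tm a := rfl
        omega
      have h3 := congrFun h1 ⟨i.val - tk a * tt a, hu⟩
      unfold testS at h3
      have h4 : (⟨tk a * tt a + (i.val - tk a * tt a), by omega⟩ : Fin (tQ a)) = i :=
        Fin.ext (by show tk a * tt a + (i.val - tk a * tt a) = i.val; omega)
      rw [h4] at h3
      exact h3
  · simp only [Fintype.card_prod, Fintype.card_fun, Fintype.card_fin]
    unfold tQ
    rw [pow_add, pow_mul', mul_comm]

/-- the test pairs -/
def pw {n m : ℕ} (z : Fin (2 * m) → Fin n) (r : Fin m) : Fin n × Fin n :=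
  (z ⟨2 * r.val, by have := r.isLt; omega⟩, z ⟨2 * r.val + 1, by have := r.isLt; omega⟩)

theorem pw_bij {n m : ℕ} : Function.Bijective (pw (n := n) (m := m)) := by
  rw [Fintype.bijective_iff_injective_and_card]
  constructor
  · intro z z' h
    funext i
    have hi := i.isLt
    have hr : i.val / 2 < m := by omega
    have h1 := congrFun h ⟨i.val / 2, hr⟩
    have h2 := congrArg Prod.fst h1
    have h3 := congrArg Prod.snd h1
    rcases Nat.mod_two_eq_zero_or_one i.val with h0 | h0
    · have h4 : (⟨2 * (i.val / 2), by omega⟩ : Fin (2 * m)) = i := Fin.ext (by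
        show 2 * (i.val / 2) = i.val; omega)
      unfold pw at h2
      simp only at h2
      rw [h4] at h2
      exact h2
    · have h4 : (⟨2 * (i.val / 2) + 1, by omega⟩ : Fin (2 * m)) = i := Fin.ext (by
        show 2 * (i.val / 2) + 1 = i.val; omega)
      unfold pw at h3
      simp only at h3
      rw [h4] at h3
      exact h3
  · simp only [Fintype.card_prod, Fintype.card_fun, Fintype.card_fin]
    rw [pow_mul, sq]

section
open Classical

/-- from random labels to random labellings -/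
theorem core (hT : TacStmt) (hRl : RlbStmt) (hV : ValStmt) (fl : ℕ → ℕ) (a n : ℕ) (ha : 1 ≤ a)
    (hn : 0 < n) (G : SimpleGraph (Fin n)) (Q : Prop → Prop) (c : ℝ)
    (hc : ((univ.filter fun w : (Fin n → Fin (tk a)) × (Fin (2 * tm a) → Fin n) ×
        (Fin (tk a) → Fin (tt a) → Fin n) =>
        Q (accept G (4 * a) w.1 (thrN fl a + 3 * (1 / (16 * a))) w.2.2 (pw w.2.1))).card : ℝ) ≤
      c * ((tk a : ℝ) ^ n * ((n : ℝ) ^ (2 * tm a) *
        Fintype.card (Fin (tk a) → Fin (tt a) → Fin n)))) :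
    ((univ.filter fun z : (Fin (2 * tm a * tκ a) → Bool) × (Fin (tQ a) → Fin n) =>
        Q (tEnc a (List.ofFn z.1) (ansS G z.2) ∈ tLang fl)).card : ℝ) ≤
      (c + ((2 * tm a : ℕ) : ℝ) ^ 2 / n) * (2 ^ (2 * tm a * tκ a) * (n : ℝ) ^ tQ a) := by
  set eb := Equiv.ofBijective _ (bl_bij hV a) with heb
  set ex := Equiv.ofBijective _ (cx_bij (n := n) ha) with hex
  have hk : 0 < tk a := by unfold tk; positivity
  have h1 := hRl (Fin (tk a) → Fin (tt a) → Fin n) (tk a) (2 * tm a) n
    (fun lab z ω => Q (accept G (4 * a) lab (thrN fl a + 3 * (1 / (16 * a))) ω (pw z)))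
    (fun l z ω => Q (tEnc a (List.ofFn (eb.symm l)) (ansS G (ex.symm (z, ω))) ∈ tLang fl)) c hk hn
    (by
      intro lab z ω _ hR
      have hx : cx (ex.symm (z, ω)) = (z, ω) := ex.apply_symm_apply (z, ω)
      have hz : testS (ex.symm (z, ω)) = z := congrArg Prod.fst hx
      have hω : blockS (ex.symm (z, ω)) = ω := congrArg Prod.snd hx
      have hl : bl hV (eb.symm fun i => lab (z i)) = fun i => lab (z i) :=
        eb.apply_symm_apply (fun i => lab (z i))
      have h2 := hT fl a n G (ex.symm (z, ω)) (eb.symm fun i => lab (z i)) lab ha (by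
        intro u
        have := congrArg Fin.val (congrFun hl u)
        rw [hz]
        exact this.symm)
      have hp : pairS (ex.symm (z, ω)) = pw z := by
        have : pairS (ex.symm (z, ω)) = pw (testS (ex.symm (z, ω))) := rfl
        rw [this, hz]
      rw [hω, hp] at h2
      rw [← propext h2]
      exact hR)
  have h3 := h1 hc
  have h4 : (univ.filter fun z : (Fin (2 * tm a * tκ a) → Bool) × (Fin (tQ a) → Fin n) =>
        Q (tEnc a (List.ofFn z.1) (ansS G z.2) ∈ tLang fl)).card =
      (univ.filter fun w : (Fin (2 * tm a) → Fin (tk a)) × (Fin (2 * tm a) → Fin n) ×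
        (Fin (tk a) → Fin (tt a) → Fin n) =>
        Q (tEnc a (List.ofFn (eb.symm w.1)) (ansS G (ex.symm (w.2.1, w.2.2))) ∈ tLang fl)).card := by
    refine Finset.card_equiv (Equiv.prodCongr eb ex) ?_
    rintro ⟨labs, x⟩
    simp only [Finset.mem_filter, Finset.mem_univ, true_and, Equiv.prodCongr_apply, Prod.map]
    rw [Equiv.symm_apply_apply, Prod.mk.eta, Equiv.symm_apply_apply]
  rw [h4]
  refine h3.trans (le_of_eq ?_)
  congr 1
  have e1 : ((tk a : ℕ) : ℝ) ^ (2 * tm a) = 2 ^ (2 * tm a * tκ a) := by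
    unfold tk
    push_cast
    rw [← pow_mul, mul_comm]
  have e2 : (n : ℝ) ^ (2 * tm a) * (Fintype.card (Fin (tk a) → Fin (tt a) → Fin n) : ℝ) =
      (n : ℝ) ^ tQ a := by
    simp only [Fintype.card_fun, Fintype.card_fin]
    push_cast
    unfold tQ
    rw [pow_add, pow_mul' (n : ℝ) (tk a) (tt a), mul_comm]
  rw [e1, e2]

/-- splitting the labellings -/
theorem count (a n : ℕ) (G : SimpleGraph (Fin n)) (Q : Prop → Prop) (θ : ℝ) :
    ((univ.filter fun w : (Fin n → Fin (tk a)) × (Fin (2 * tm a) → Fin n) ×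
        (Fin (tk a) → Fin (tt a) → Fin n) =>
        Q (accept G (4 * a) w.1 θ w.2.2 (pw w.2.1))).card : ℝ) =
      ∑ lab : Fin n → Fin (tk a), ((univ.filter fun z : (Fin (tk a) → Fin (tt a) → Fin n) ×
        (Fin (tm a) → Fin n × Fin n) => Q (accept G (4 * a) lab θ z.1 z.2)).card : ℝ) := by
  rw [card_filter_prod (fun (lab : Fin n → Fin (tk a)) (w : (Fin (2 * tm a) → Fin n) ×
        (Fin (tk a) → Fin (tt a) → Fin n)) => Q (accept G (4 * a) lab θ w.2 (pw w.1)))]
  refine Finset.sum_congr rfl fun lab _ => ?_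
  congr 1
  refine Finset.card_equiv ((Equiv.prodCongr (Equiv.ofBijective _ (pw_bij (n := n) (m := tm a)))
    (Equiv.refl _)).trans (Equiv.prodComm _ _)) ?_
  rintro ⟨z, ω⟩
  simp only [Finset.mem_filter, Finset.mem_univ, true_and]
  rfl

theorem card_om (a n : ℕ) : (n : ℝ) ^ (2 * tm a) *
      (Fintype.card (Fin (tk a) → Fin (tt a) → Fin n) : ℝ) =
    Fintype.card ((Fin (tk a) → Fin (tt a) → Fin n) × (Fin (tm a) → Fin n × Fin n)) := by
  simp only [Fintype.card_prod, Fintype.card_fun, Fintype.card_fin]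
  push_cast
  rw [pow_mul (n : ℝ) 2 (tm a), sq, mul_comm]

theorem err (hT : TacStmt) (hC : CmtStmt) (hB : BadStmt) (hRl : RlbStmt) (hV : ValStmt)
    (_ : RstStmt) (_ : InjStmt) : ErrStmt := by
  intro ρ a η hρ hρ1 ha hη
  set fl : ℕ → ℕ := fun n => ⌊ρ * n⌋₊ with hfl
  set k : ℝ := (tk a : ℝ) with hk
  set N : ℝ := ((2 * tm a : ℕ) : ℝ) with hN
  have haR : (1 : ℝ) ≤ a := by exact_mod_cast ha
  have hkpos : 0 < tk a := by unfold tk; positivity
  have hmpos : 0 < tm a := by
    unfold tm
    have : 0 < tk a * tt a + 8 := by omega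
    positivity
  -- the threshold
  have htm : (16 * a : ℝ) ≤ 4 * (tm a : ℝ) ^ 2 := by
    have h1 : (16 * a) ≤ tm a := by
      unfold tm
      have h2 : 16 * a ≤ (16 * a) ^ 4 := Nat.le_self_pow (by norm_num) _
      nlinarith [Nat.zero_le (tk a * tt a), Nat.zero_le ((16 * a) ^ 4),
        Nat.zero_le ((16 * a) ^ 4 * (tk a * tt a))]
    have h3 : (16 * a : ℝ) ≤ tm a := by exact_mod_cast h1
    nlinarith
  have hM : (0 : ℝ) < 4 * (tm a : ℝ) ^ 2 := by
    have : (0 : ℝ) < tm a := by exact_mod_cast hmpos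
    positivity
  have hthr1 : ρ ≤ thrN fl a := by
    unfold thrN
    rw [le_div_iff₀ hM]
    have := Nat.lt_floor_add_one (ρ * ((4 * tm a ^ 2 : ℕ) : ℝ))
    show ρ * (4 * (tm a : ℝ) ^ 2) ≤ ((⌊ρ * ((4 * tm a ^ 2 : ℕ) : ℝ)⌋₊ : ℕ) : ℝ) + 1
    push_cast at this ⊢
    linarith
  have hthr2 : thrN fl a ≤ ρ + 1 / (16 * a) := by
    unfold thrN
    rw [div_le_iff₀ hM]
    have h1 := Nat.floor_le (show 0 ≤ ρ * ((4 * tm a ^ 2 : ℕ) : ℝ) by positivity)
    show ((⌊ρ * ((4 * tm a ^ 2 : ℕ) : ℝ)⌋₊ : ℕ) : ℝ) + 1 ≤ (ρ + 1 / (16 * a)) * (4 * (tm a : ℝ) ^ 2)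
    have h2 : (1 : ℝ) ≤ 1 / (16 * a) * (4 * (tm a : ℝ) ^ 2) := by
      rw [one_div, ← div_eq_inv_mul, le_div_iff₀ (by positivity), one_mul]
      exact htm
    push_cast at h1 ⊢
    nlinarith
  obtain ⟨n₀, hn₀⟩ := exists_nat_gt ((k ^ 3 + N ^ 2) / η)
  refine ⟨max n₀ 1, fun n hn he G => ?_⟩
  have hn1 : 0 < n := by have := le_max_right n₀ 1; omega
  have hnR : (0 : ℝ) < n := by exact_mod_cast hn1
  have hbig : (k ^ 3 + N ^ 2) / n ≤ η := by
    rw [div_le_iff₀ hnR]
    rw [div_lt_iff₀ hη] at hn₀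
    have h1 : (n₀ : ℝ) ≤ n := by
      have := le_max_left n₀ 1
      have : n₀ ≤ n := by omega
      exact_mod_cast this
    nlinarith
  have hk0 : 0 ≤ k := Nat.cast_nonneg _
  have hN0 : 0 ≤ N := Nat.cast_nonneg _
  have hcardlab : ∑ _lab : Fin n → Fin (tk a), (1 : ℝ) = k ^ n := by
    rw [Finset.sum_const, card_univ, nsmul_eq_mul, mul_one]
    simp only [Fintype.card_fun, Fintype.card_fin]
    push_cast
    rfl
  set C : ℝ := ((Fintype.card ((Fin (tk a) → Fin (tt a) → Fin n) ×
    (Fin (tm a) → Fin n × Fin n)) : ℕ) : ℝ) with hCdef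
  have hC0 : 0 ≤ C := Nat.cast_nonneg _
  have hgen : ∀ d : ℝ, d + N ^ 2 / n ≤ 1 / 20 + η → (d + N ^ 2 / n) * (2 ^ (2 * tm a * tκ a) *
      (n : ℝ) ^ tQ a) ≤ (1 / 20 + η) * (2 ^ (2 * tm a * tκ a) * (n : ℝ) ^ tQ a) := by
    intro d hd
    exact mul_le_mul_of_nonneg_right hd (by positivity)
  constructor
  · rintro ⟨S, hS1, hS2⟩
    have hobj : obj G (4 * a) (fun v => decide (v ∈ S)) ≤ thrN fl a := by
      rw [obj_eq]
      have h1 : (S.card : ℝ) / n - 1 / 2 = 0 := by
        have : (n : ℝ) = 2 * S.card := by exact_mod_cast hS1.symm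
        have hS0 : (0 : ℝ) < S.card := by
          rw [this] at hnR; linarith
        rw [this]
        field_simp
        ring
      rw [h1]
      have h2 : (cutEdges G S : ℝ) / (n : ℝ) ^ 2 ≤ ρ := by
        rw [div_le_iff₀ (by positivity)]; exact hS2
      have h3 : (4 * (a : ℝ)) * (0 : ℝ) ^ 2 = 0 := by ring
      rw [h3]
      linarith
    have hc : ((univ.filter fun w : (Fin n → Fin (tk a)) × (Fin (2 * tm a) → Fin n) ×
        (Fin (tk a) → Fin (tt a) → Fin n) =>
        ¬ (accept G (4 * a) w.1 (thrN fl a + 3 * (1 / (16 * a))) w.2.2 (pw w.2.1))).card : ℝ) ≤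
        (1 / 20 + k ^ 3 / n) * (k ^ n * ((n : ℝ) ^ (2 * tm a) *
        Fintype.card (Fin (tk a) → Fin (tt a) → Fin n))) := by
      have hcount := count a n G Not (thrN fl a + 3 * (1 / (16 * a)))
      rw [card_om]
      refine le_trans (le_of_eq (Eq.trans ?_ hcount)) ?_
      · congr!
      -- good and bad labellings
      have hb := hB (tk a) n hkpos hn1
      have hone : ∀ lab : Fin n → Fin (tk a), ((univ.filter fun z :
          (Fin (tk a) → Fin (tt a) → Fin n) × (Fin (tm a) → Fin n × Fin n) =>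
          ¬ (accept G (4 * a) lab (thrN fl a + 3 * (1 / (16 * a))) z.1 z.2)).card : ℝ) ≤
          C * (1 / 20) + (if ¬ ∀ i, ((univ.filter (fun v => (lab v).val = i)).card : ℝ) / n ≤
            2 / (tk a : ℝ) then C else 0) := by
        intro lab
        by_cases hlab : ∀ i, ((univ.filter (fun v => (lab v).val = i)).card : ℝ) / n ≤
            2 / (tk a : ℝ)
        · rw [if_neg (not_not.2 hlab), add_zero]
          refine le_trans (le_of_eq ?_) ((hC a n G lab (thrN fl a) ha hn1).1 hlab _ hobj)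
          congr!
        · rw [if_pos hlab]
          have h1 : ((univ.filter fun z :
            (Fin (tk a) → Fin (tt a) → Fin n) × (Fin (tm a) → Fin n × Fin n) =>
            ¬ (accept G (4 * a) lab (thrN fl a + 3 * (1 / (16 * a))) z.1 z.2)).card : ℝ) ≤ C := by
            rw [hCdef]
            exact_mod_cast Finset.card_le_univ _
          linarith
      have hone' : ∀ lab : Fin n → Fin (tk a), ((univ.filter fun z :
          (Fin (tk a) → Fin (tt a) → Fin n) × (Fin (tm a) → Fin n × Fin n) =>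
          Not (accept G (4 * a) lab (thrN fl a + 3 * (1 / (16 * a))) z.1 z.2)).card : ℝ) ≤
          C * (1 / 20) + (if ¬ ∀ i, ((univ.filter (fun v => (lab v).val = i)).card : ℝ) / n ≤
            2 / (tk a : ℝ) then C else 0) := hone
      refine le_trans (Finset.sum_le_sum (g := fun lab : Fin n → Fin (tk a) =>
        C * (1 / 20) + (if ¬ ∀ i, ((univ.filter (fun v => (lab v).val = i)).card : ℝ) / n ≤
            2 / (tk a : ℝ) then C else 0)) fun lab _ => ?_) ?_
      · refine le_trans (le_of_eq ?_) (hone' lab)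
        congr!
      rw [Finset.sum_add_distrib, ← Finset.sum_filter, Finset.sum_const, Finset.sum_const,
        nsmul_eq_mul, nsmul_eq_mul, card_univ]
      have hcl : ((Fintype.card (Fin n → Fin (tk a)) : ℕ) : ℝ) = k ^ n := by
        simp only [Fintype.card_fun, Fintype.card_fin]
        push_cast
        rfl
      rw [hcl]
      have hb' : ((univ.filter fun lab : Fin n → Fin (tk a) =>
          ¬ ∀ i, ((univ.filter (fun v => (lab v).val = i)).card : ℝ) / n ≤
            2 / (tk a : ℝ)).card : ℝ) ≤ k ^ 3 / n * k ^ n := by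
        rw [div_mul_eq_mul_div, le_div_iff₀ hnR, mul_comm]
        exact hb
      have := mul_le_mul_of_nonneg_right hb' hC0
      calc _ ≤ k ^ n * (C * (1 / 20)) + k ^ 3 / n * k ^ n * C := by linarith
        _ = _ := by ring
    have h5 := core hT hRl hV fl a n ha hn1 G Not _ (by convert hc)
    refine le_trans (le_of_eq ?_) (h5.trans (hgen _ ?_))
    · congr!
    have : 1 / 20 + k ^ 3 / n + N ^ 2 / n = 1 / 20 + (k ^ 3 + N ^ 2) / n := by ring
    rw [this]
    linarith
  · intro hfar
    have hobj : ∀ y : Fin n → Bool, thrN fl a + 5 * (1 / (16 * a)) ≤ obj G (4 * a) y := by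
      intro y
      have h1 := obj_far G hn1 he (Λ := 4 * a) (g := ρ + 8 * (1 / (16 * a))) (by positivity) hfar y
      have h2 : (1 : ℝ) / (4 * (4 * a)) = 1 / (16 * a) := by ring
      rw [h2] at h1
      have h3 : (0 : ℝ) < 1 / (16 * a) := by positivity
      linarith
    have hc : ((univ.filter fun w : (Fin n → Fin (tk a)) × (Fin (2 * tm a) → Fin n) ×
        (Fin (tk a) → Fin (tt a) → Fin n) =>
        (accept G (4 * a) w.1 (thrN fl a + 3 * (1 / (16 * a))) w.2.2 (pw w.2.1))).card : ℝ) ≤
        (1 / 20) * (k ^ n * ((n : ℝ) ^ (2 * tm a) *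
        Fintype.card (Fin (tk a) → Fin (tt a) → Fin n))) := by
      rw [card_om, count a n G (fun p => p)]
      refine (Finset.sum_le_sum fun lab _ =>
        (hC a n G lab (thrN fl a) ha hn1).2 hobj).trans (le_of_eq ?_)
      rw [Finset.sum_const, card_univ, nsmul_eq_mul]
      have hcl : ((Fintype.card (Fin n → Fin (tk a)) : ℕ) : ℝ) = k ^ n := by
        simp only [Fintype.card_fun, Fintype.card_fin]
        push_cast
        rfl
      rw [hcl]
      ring
    have h5 := core hT hRl hV fl a n ha hn1 G (fun p => p) _ hc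
    refine h5.trans (hgen _ ?_)
    have h6 : N ^ 2 / n ≤ (k ^ 3 + N ^ 2) / n := by
      apply div_le_div_of_nonneg_right _ hnR.le
      have : 0 ≤ k ^ 3 := by positivity
      linarith
    linarith

end

end Pool.Agent.UT.H56E
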